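import Pool.Agent.Y125.WQ.UNIT
import Pool.Agent.Y546.WQ.Stm3

set_option autoImplicit false

/-!
Project WH (helper546), job WH-UNITA: the Stickelberger relation belonging to `a`.
-/

namespace Pool.Agent.Y220.WQ

open NumberField IsDedekindDomain HeightOneSpectrum
open Pool.Agent.Y546.WQ
open Pool.Agent.Y125.WQ (exp_sum root_of_unity conj_eq val_act exists_sigma)
open WithZero (exp)

variable {p : ℕ} [Fact p.Prime] {C : Type} [Field C] [NumberField C]

/-- the units are split into `hf p a` and its negative -/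
lemma neg_mem_hf {a : ℕ} (ha : 0 < a) (hap : a + 2 ≤ p) (t : (ZMod p)ˣ) :
    -t ∈ hf p a ↔ t ∉ hf p a := by
  have hp : p.Prime := Fact.out
  simp only [hf, Finset.mem_filter, Finset.mem_univ, true_and]
  have ht : (t : ZMod p) ≠ 0 := t.ne_zero
  have ha0 : (a : ZMod p) ≠ 0 := by
    intro h
    rw [ZMod.natCast_eq_zero_iff] at h
    have := Nat.le_of_dvd ha h
    omega
  have hat : (a : ZMod p) * (t : ZMod p) ≠ 0 := mul_ne_zero ha0 ht
  have ha1 : (1 + (a : ZMod p)) ≠ 0 := by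
    intro h
    have h' : ((1 + a : ℕ) : ZMod p) = 0 := by push_cast; exact h
    rw [ZMod.natCast_eq_zero_iff] at h'
    have := Nat.le_of_dvd (by omega) h'
    omega
  have hne : (t : ZMod p).val + ((a : ZMod p) * (t : ZMod p)).val ≠ p := by
    intro h
    have h1 : (((t : ZMod p).val + ((a : ZMod p) * (t : ZMod p)).val : ℕ) : ZMod p) = 0 := by
      rw [h, ZMod.natCast_self]
    push_cast at h1
    rw [ZMod.natCast_zmod_val, ZMod.natCast_zmod_val] at h1
    have h2 : (1 + (a : ZMod p)) * (t : ZMod p) = 0 := by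
      linear_combination h1
    exact mul_ne_zero ha1 ht h2
  have h3 : (t : ZMod p).val < p := ZMod.val_lt _
  have h4 : ((a : ZMod p) * (t : ZMod p)).val < p := ZMod.val_lt _
  have h5 : ((-t : (ZMod p)ˣ) : ZMod p).val = p - (t : ZMod p).val := by
    rw [Units.val_neg, ZMod.neg_val, if_neg ht]
  have h6 : ((a : ZMod p) * ((-t : (ZMod p)ˣ) : ZMod p)).val =
      p - ((a : ZMod p) * (t : ZMod p)).val := by
    rw [Units.val_neg, mul_neg, ZMod.neg_val, if_neg hat]
  rw [h5, h6]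
  omega

/-- the valuations of `tha c a x` -/
lemma val_tha (c : Cyc p C) (a : ℕ) {x : C} {m : HeightOneSpectrum (𝓞 C) → ℤ}
    (hm : ∀ P, P.valuation C x = exp ((p : ℤ) * m P)) (P : HeightOneSpectrum (𝓞 C)) :
    P.valuation C (tha c a x) = exp ((p : ℤ) * ∑ t ∈ hf p a, m (act c t⁻¹ P)) := by
  unfold tha
  rw [map_prod, Finset.mul_sum, exp_sum]
  refine Finset.prod_congr rfl fun t _ => ?_
  rw [← val_act, hm]

/-- the square of the absolute value of `tha c a x` -/
lemma norm_tha (c : Cyc p C) {a : ℕ} (ha : 0 < a) (hap : a + 2 ≤ p) (φ : C →+* ℂ) (x : C) :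
    φ (tha c a x) * (starRingEnd ℂ) (φ (tha c a x)) = ∏ t : (ZMod p)ˣ, φ (c.σ t x) := by
  classical
  rw [conj_eq c]
  unfold tha
  rw [map_prod, map_prod, map_prod]
  have h1 : ∏ t : (ZMod p)ˣ, φ (c.σ t x) = ∏ t : (ZMod p)ˣ, φ (c.σ t⁻¹ x) :=
    (Fintype.prod_equiv (Equiv.inv _) _ _ fun t => by simp).symm
  have h2 : ∏ t ∈ hf p a, φ (c.σ (-1) (c.σ t⁻¹ x)) =
      ∏ t ∈ Finset.univ.filter (fun t : (ZMod p)ˣ => ¬ t ∈ hf p a), φ (c.σ t⁻¹ x) := by
    refine Finset.prod_nbij' (fun t => -t) (fun t => -t) ?_ ?_ ?_ ?_ ?_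
    · intro t ht
      simp only [Finset.mem_filter, Finset.mem_univ, true_and]
      intro h
      exact (neg_mem_hf ha hap t).1 h ht
    · intro t ht
      simp only [Finset.mem_filter, Finset.mem_univ, true_and] at ht
      exact (neg_mem_hf ha hap t).2 ht
    · intro t _; simp
    · intro t _; simp
    · intro t _
      congr 1
      have : (-t)⁻¹ = (-1) * t⁻¹ := by
        rw [inv_neg, neg_mul, one_mul]
      rw [this, map_mul]
      rfl
  have h3 : ∏ t ∈ hf p a, φ (c.σ t⁻¹ x) =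
      ∏ t ∈ Finset.univ.filter (fun t : (ZMod p)ˣ => t ∈ hf p a), φ (c.σ t⁻¹ x) := by
    refine Finset.prod_congr ?_ fun _ _ => rfl
    ext t
    simp
  rw [h1, h2, h3]
  exact Finset.prod_filter_mul_prod_filter_not _ _ _

/-- the absolute values of all the conjugates of `tha c a x` agree -/
lemma norm_tha_eq (c : Cyc p C) {a : ℕ} (ha : 0 < a) (hap : a + 2 ≤ p) (φ ψ : C →+* ℂ) (x : C) :
    ‖φ (tha c a x)‖ ^ 2 = ‖ψ (tha c a x)‖ ^ 2 := by
  have h1 := norm_tha c ha hap φ x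
  have h2 := norm_tha c ha hap ψ x
  obtain ⟨s, hs⟩ := exists_sigma c φ ψ
  have h3 : ∏ t : (ZMod p)ˣ, ψ (c.σ t x) = ∏ t : (ZMod p)ˣ, φ (c.σ t x) := by
    rw [hs]
    refine Fintype.prod_equiv (Equiv.mulLeft s) _ _ fun t => ?_
    show φ (c.σ s (c.σ t x)) = φ (c.σ (s * t) x)
    rw [map_mul]
    rfl
  rw [h3, ← h1, Complex.mul_conj, Complex.mul_conj] at h2
  rw [Complex.normSq_eq_norm_sq, Complex.normSq_eq_norm_sq] at h2
  exact_mod_cast h2.symm

/-- **UNITA** -/
theorem mainUNITA (hJ : S_JACA) : S_UNITA := by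
  classical
  intro p _ hp2 a ha hap C _ _ c x hx hval hp1
  have hp : p.Prime := Fact.out
  choose m hm using hval
  have hmp : ∀ P : HeightOneSpectrum (𝓞 C), ((p : ℕ) : 𝓞 C) ∈ P.asIdeal → m P = 0 := by
    intro P hP
    have h1 := hp1 P hP
    rw [hm P, WithZero.exp_eq_one] at h1
    rcases mul_eq_zero.mp h1 with h2 | h2
    · exact absurd (by exact_mod_cast h2) hp.ne_zero
    · exact h2
  -- the support is finite
  have hfin : {P : HeightOneSpectrum (𝓞 C) | m P ≠ 0}.Finite := by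
    apply ((HeightOneSpectrum.Support.finite (𝓞 C) x).union
      (HeightOneSpectrum.Support.finite (𝓞 C) x⁻¹)).subset
    intro P hP
    rcases lt_or_gt_of_ne (show m P ≠ 0 from hP) with h | h
    · right
      show 1 < P.valuation C x⁻¹
      rw [map_inv₀, hm P, ← WithZero.exp_neg, ← WithZero.exp_zero, WithZero.exp_lt_exp]
      have : (0 : ℤ) < p := by exact_mod_cast hp.pos
      nlinarith
    · left
      show 1 < P.valuation C x
      rw [hm P, ← WithZero.exp_zero, WithZero.exp_lt_exp]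
      have : (0 : ℤ) < p := by exact_mod_cast hp.pos
      positivity
  set S := hfin.toFinset with hS
  have hSm : ∀ P, P ∈ S ↔ m P ≠ 0 := fun P => by rw [hS, Set.Finite.mem_toFinset]; rfl
  have hex : ∀ Q : HeightOneSpectrum (𝓞 C), ∃ J : C, m Q ≠ 0 → (J ≠ 0 ∧
      (∃ r : ℝ, 0 < r ∧ ∀ φ : C →+* ℂ, ‖φ J‖ ^ 2 = r) ∧
      ∀ P : HeightOneSpectrum (𝓞 C), P.valuation C J =
        exp (-(((hf p a).filter fun t => act c t⁻¹ P = Q).card : ℤ))) := by
    intro Q
    by_cases hQ : m Q = 0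
    · exact ⟨1, fun h => absurd hQ h⟩
    · obtain ⟨J, h1, h2, h3⟩ := hJ p hp2 a ha hap C c Q (fun h => hQ (hmp Q h))
      exact ⟨J, fun _ => ⟨h1, h2, h3⟩⟩
  choose J hJ' using hex
  set γ : C := ∏ Q ∈ S, J Q ^ (-(m Q)) with hγ
  have hγ0 : γ ≠ 0 := by
    rw [hγ]
    exact Finset.prod_ne_zero_iff.mpr fun Q hQ => zpow_ne_zero _ (hJ' Q ((hSm Q).mp hQ)).1
  -- valuations of gamma
  have hγv : ∀ P : HeightOneSpectrum (𝓞 C), P.valuation C γ =
      exp (∑ t ∈ hf p a, m (act c t⁻¹ P)) := by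
    intro P
    rw [hγ, map_prod]
    have h1 : ∀ Q ∈ S, P.valuation C (J Q ^ (-(m Q))) =
        exp (m Q * (((hf p a).filter fun t => act c t⁻¹ P = Q).card : ℤ)) := by
      intro Q hQ
      rw [map_zpow₀, (hJ' Q ((hSm Q).mp hQ)).2.2 P, ← WithZero.exp_zsmul]
      congr 1
      rw [smul_eq_mul]; ring
    rw [Finset.prod_congr rfl h1, ← exp_sum]
    congr 1
    have h2 : ∀ Q ∈ S, m Q * (((hf p a).filter fun t => act c t⁻¹ P = Q).card : ℤ) =
        ∑ t ∈ hf p a, if act c t⁻¹ P = Q then m Q else 0 := by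
      intro Q _
      rw [← Finset.sum_filter, Finset.sum_const, nsmul_eq_mul, mul_comm]
    rw [Finset.sum_congr rfl h2, Finset.sum_comm]
    refine Finset.sum_congr rfl fun t _ => ?_
    rw [Finset.sum_ite_eq]
    split_ifs with h3
    · rfl
    · rw [hSm] at h3
      push Not at h3
      exact h3.symm
  -- absolute values of gamma
  have hγa : ∀ φ ψ : C →+* ℂ, ‖φ γ‖ ^ 2 = ‖ψ γ‖ ^ 2 := by
    intro φ ψ
    rw [hγ, map_prod, map_prod, norm_prod, norm_prod, ← Finset.prod_pow, ← Finset.prod_pow]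
    refine Finset.prod_congr rfl fun Q hQ => ?_
    obtain ⟨r, _, hr⟩ := (hJ' Q ((hSm Q).mp hQ)).2.1
    have h1 : ∀ φ : C →+* ℂ, ‖φ (J Q ^ (-(m Q)))‖ ^ 2 = r ^ (-(m Q)) := by
      intro φ
      rw [map_zpow₀, norm_zpow, ← hr φ, ← zpow_natCast, ← zpow_natCast, ← zpow_mul, ← zpow_mul,
        mul_comm]
    rw [h1, h1]
  have hth0 : tha c a x ≠ 0 := by
    unfold tha
    exact Finset.prod_ne_zero_iff.mpr fun t _ => by
      rw [Ne, map_eq_zero]; exact hx
  set u : C := tha c a x / γ ^ p with hu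
  have hu0 : u ≠ 0 := div_ne_zero hth0 (pow_ne_zero _ hγ0)
  have huv : ∀ P : HeightOneSpectrum (𝓞 C), P.valuation C u = 1 := by
    intro P
    rw [hu, map_div₀, map_pow, hγv, val_tha c a hm P, ← WithZero.exp_nsmul, ← WithZero.exp_sub]
    rw [nsmul_eq_mul, sub_self, WithZero.exp_zero]
  obtain ⟨i, hi⟩ := root_of_unity c hu0 huv (fun φ ψ => by
    rw [hu, map_div₀, map_div₀, norm_div, norm_div, div_pow, div_pow, norm_tha_eq c ha hap φ ψ x,
      map_pow, map_pow, norm_pow, norm_pow, ← pow_mul, ← pow_mul, mul_comm p 2, pow_mul, pow_mul,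
      hγa φ ψ])
  have hmain : tha c a x = u * γ ^ p := by
    rw [hu, div_mul_cancel₀ _ (pow_ne_zero _ hγ0)]
  rcases hi with hi | hi
  · exact ⟨γ, hγ0, i, by rw [hmain, hi]⟩
  · refine ⟨-γ, neg_ne_zero.mpr hγ0, i, ?_⟩
    rw [hmain, hi, Odd.neg_pow (hp.odd_of_ne_two hp2)]
    ring

end Pool.Agent.Y220.WQ
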